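import Pool.Agent.R187.CT.Base
import Pool.Agent.H176.DT.H12
import Pool.Agent.H176.DT.H13

/-!
MP_1a953e_ag: semistable uniformization, in all dimensions, of the points which are reached by towers
without defect from discrete or divergent points, and from points of surfaces.

Let `k` be a (complete) discretely valued field of characteristic zero, with the ring of integers
`O`, the uniformizer `π` and the residue characteristic `p ≥ 0`. Let `X` be an integral projective
`k`-scheme of any dimension with the function field `K`, with the projective flat model `𝒳` over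
`O`, and let `v` be a point of the Berkovich analytification of `X` which lies over the generic
point of `X`, that is, a multiplicative norm `v` on `K` which extends the one of `k`. Let
`E ⊆ K` be a subfield, finitely generated over `k`, such that the restriction of `v` to `E` is
discrete, or has divergent sequences of quadratic transforms, or is log uniformizable (for example,
if the transcendence degree of `E / k` is at most `2`, by Cossart and Piltant); there is no condition
on the defect of `E / k`. Suppose that `K` is reached from `E` by a tower of transcendental steps without limit key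
polynomials and finite extensions without defect (the ramification can be wild, and the residue
field extensions inseparable). Suppose that `|π|` is not a `p`-th power in the value group of `v`.
Then there are numbers `d`, prime to `p`, and `N₀` such that, for every `N ≥ N₀` divisible by `d`
(for example, prime to `p`), for `l = k(ϖ)`, `ϖ ^ N = π`, with the ring of integers `O[ϖ]`, and for
every preimage `v'` of `v` in the analytification of `X_l`, a blowing-up of `𝒳 ⊗ O[ϖ]` in a closed
subscheme of the special fibre, that is, an admissible blowing-up, is semistable at the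
specialization of `v'`: its local ring is regular, and `ϖ` is a product of distinct elements of a
regular system of parameters. In particular, `v` is uniformizable, by a tamely ramified extension.

For example, `X` may be fibred in curves, surfaces, ... over a variety `Y` with the function field
`E`, such that the image of `v` in `Y` has a discrete value group (with an arbitrary residue field
and arbitrary defect), and `v` is an Abhyankar valuation, or any tower without defect, along the
fibre. The cases `E = k` and `E = K` are the results DefectlessPoints and DivergentPoints.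
-/

set_option autoImplicit false

universe u

namespace Pool.Agent.Results.MP_1a953e_ag.TowersOverPoints

open IsLocalRing Pool.Agent.W418.LU2 Pool.Agent.TH188.QS

/-- The local ring of `Spec B` at the centre of the valuation ring `V`: the fractions of elements
of `B` whose denominators are units of `V`. -/
def centreRing {F : Type u} [Field F] (V : ValuationSubring F) (B : Subring F) : Subring F where
  carrier := {x | ∃ a ∈ B, ∃ b ∈ B, b ≠ 0 ∧ b⁻¹ ∈ V ∧ x = a * b⁻¹}
  mul_mem' := (lo V.toSubring B).mul_mem'
  one_mem' := (lo V.toSubring B).one_mem'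
  add_mem' := (lo V.toSubring B).add_mem'
  zero_mem' := (lo V.toSubring B).zero_mem'
  neg_mem' := (lo V.toSubring B).neg_mem'

/-- The quadratic transform of `Q` along `V`: the local ring, at the centre of `V`, of the
blowing-up of `Spec Q` in the centre of `V`. -/
def quadraticTransform {K : Type u} [Field K] (V : ValuationSubring K) (Q : Subring K) :
    Subring K :=
  centreRing V (Subring.closure ((Q : Set K) ∪ {t | ∃ y ∈ Q, ∃ z ∈ Q,
    V.valuation y < 1 ∧ z ≠ 0 ∧ V.valuation z < 1 ∧
      (∀ w ∈ Q, V.valuation w < 1 → V.valuation w ≤ V.valuation z) ∧ t = y / z}))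

/-- The sequence of quadratic transforms of the local ring of `Spec A` at the centre of `V`. -/
def quadraticSequence {K : Type u} [Field K] (V : ValuationSubring K) (A : Subring K) :
    ℕ → Subring K
  | 0 => centreRing V A
  | n + 1 => quadraticTransform V (quadraticSequence V A n)

/-- The values of the maximal ideals in the sequence of quadratic transforms have an infinite sum:
every value of `V` is exceeded by the value of all products `z 0 * ... * z (n - 1)` of elements
`z i` of the maximal ideals of the rings of the sequence, for some `n`. -/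
def IsDivergent {K : Type u} [Field K] (V : ValuationSubring K) (A : Subring K) : Prop :=
  ∀ x : K, x ≠ 0 → ∃ n : ℕ, ∀ z : ℕ → K,
    (∀ i < n, z i ∈ quadraticSequence V A i ∧ z i ≠ 0 ∧ V.valuation (z i) < 1) →
      V.valuation (∏ i ∈ Finset.range n, z i) < V.valuation x

/-- The subring `P` of the field `K` is a regular local ring, and `ϖ` is the product of some (at
least one) of the elements of a regular system of parameters. (If `ϖ` is a uniformizer of a discrete
valuation ring `O` with perfect residue field and `P` is the local ring of an integral flat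
`O`-scheme of finite type at a point of the special fibre, then these elements `t i` define a
morphism from a neighbourhood of this point to `Spec O[t 0, ..., t d] / (t 0 * ... * t d - ϖ)` which
is flat with regular, hence smooth, fibre through this point; so it is smooth there.) -/
def IsSemistable {K : Type u} [Field K] (P : Subring K) (ϖ : K) : Prop :=
  ∃ (_ : IsRegularLocalRing P) (n : ℕ) (x : Fin n → P) (S : Finset (Fin n)),
    Ideal.span (Set.range x) = IsLocalRing.maximalIdeal P ∧ ringKrullDim P = n ∧
      S.Nonempty ∧ ϖ = ∏ i ∈ S, (x i : K)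

/-- The coordinate ring `O[v / w : v ∈ W]` of the chart `w ≠ 0` of the projective `O`-scheme
`Proj O[W]` with the function field `K` and the homogeneous coordinates `W ⊆ K`. -/
def chart {K : Type u} [Field K] (O : Subring K) (W : Set K) (w : K) : Subring K :=
  Subring.closure ((O : Set K) ∪ {z | ∃ v ∈ W, z = v / w})

/-- `Y` is a finite set of forms of some degree `d` over `O` in the homogeneous coordinates `W`,
and `p ^ n` times any form of degree `d` is a linear combination of the forms in `Y`, for some `n`.
So the closed subscheme of `Proj O[W]` defined by the forms in `Y` is contained in the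
fibre over `p`. -/
def IsVerticalCentre {K : Type u} [Field K] (O : Subring K) (p : K) (W Y : Set K) : Prop :=
  Y.Finite ∧ ∃ d n : ℕ, Y ⊆ ((Submodule.span O W) ^ d : Submodule O K) ∧
    ∀ z ∈ (Submodule.span O W) ^ d, p ^ n * z ∈ Submodule.span O Y

/-- The homogeneous coordinates of the blowing-up of `Proj O[W]` in the closed subscheme which is
defined by the forms in `Y`. -/
def blowUpCoordinates {K : Type u} [Field K] (W Y : Set K) : Set K :=
  {z | ∃ y ∈ Y, ∃ v ∈ W, z = y * v}

/-- The projective scheme `Proj O[W]` is semistable at the centre of `V`, which lies in the chart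
`w ≠ 0`. -/
def IsSemistableAt {K : Type u} [Field K] (V : ValuationSubring K) (O : Subring K) (W : Set K)
    (ϖ : K) : Prop :=
  ∃ w ∈ W, w ≠ 0 ∧ (∀ v ∈ W, v / w ∈ V) ∧ IsSemistable (centreRing V (chart O W w)) ϖ

/-- The ring `O[ϖ]`. (If `O` is a discrete valuation ring with the uniformizer `π = ϖ ^ N`, then it
is the ring of integers of the totally ramified extension `k(ϖ)` of the field of fractions `k` of
`O`.) -/
def ramifiedRing {L K' : Type u} [Field L] [Field K'] (φ : L →+* K') (O : Subring L) (ϖ : K') :
    Subring K' :=
  Subring.closure ((O.map φ : Set K') ∪ {ϖ})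

/-- `K' = K(ϖ)` with `ϖ ^ N = π`, and `V'` is a valuation ring of `K'` over the valuation ring `V`
of `K`. -/
def IsLift {K K' : Type u} [Field K] [Field K'] [Algebra K K'] (V : ValuationSubring K) (π : K)
    (N : ℕ) (V' : ValuationSubring K') (ϖ : K') : Prop :=
  V'.comap (algebraMap K K') = V ∧ ϖ ^ N = algebraMap K K' π ∧
    ∀ z : K', z ∈ Subfield.closure (Set.range (algebraMap K K') ∪ {ϖ})

section key

open Polynomial

variable {K : Type u} [Field K] (V : ValuationSubring K) {L : Subfield K} (θ : K)

/-- The monic polynomial `ϕ` over `L` of positive degree is a key polynomial for the valuation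
`f ↦ |f(θ)|` of polynomials: if `f` and `g` are nonzero polynomials of smaller degree and
`f g = q ϕ + r` with `deg r < deg ϕ`, then `|q(θ) ϕ(θ)| < |f(θ) g(θ)|`. (So `|r(θ)| = |f(θ) g(θ)|`,
and the values of the polynomials of smaller degree define a valuation of `L[X] / (ϕ)`.) -/
def IsKey (ϕ : L[X]) : Prop :=
  ϕ.Monic ∧ 0 < ϕ.natDegree ∧ ∀ f g : L[X], f.degree < ϕ.degree → g.degree < ϕ.degree →
    f ≠ 0 → g ≠ 0 → V.valuation (aeval θ (f * g /ₘ ϕ * ϕ)) < V.valuation (aeval θ (f * g))

/-- The polynomials of degree less than the degree of `ϕ` have an orthogonal basis over `L` with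
respect to the valuation `f ↦ |f(θ)|`. (For a key polynomial `ϕ` this means that the valued field
`L[X] / (ϕ)` is an extension of `L` of degree `e f`. It holds if there are no limit key
polynomials of degree at most `deg ϕ`.) -/
def IsDefectless (ϕ : L[X]) : Prop :=
  ∃ (n : ℕ) (β : Fin n → L[X]), (∀ i, (β i).degree < ϕ.degree ∧ β i ≠ 0) ∧
    (∀ f : L[X], f.degree < ϕ.degree → ∃ c : Fin n → L, f = ∑ i, C (c i) * β i) ∧
    ∀ (c : Fin n → L) (i : Fin n), V.valuation (aeval θ (C (c i) * β i)) ≤
      V.valuation (aeval θ (∑ j, C (c j) * β j))

/-- The value of `f(θ)` is determined by `ϕ`: in the `ϕ`-adic expansion `f = ∑ f_k ϕ ^ k` with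
`deg f_k < deg ϕ` the value of no term at `θ` is greater than the value of `f(θ)`. -/
def IsDetermined (ϕ f : L[X]) : Prop :=
  ∃ (N : ℕ) (d : ℕ → L[X]), (∀ k, (d k).degree < ϕ.degree) ∧
    f = ∑ k ∈ Finset.range N, d k * ϕ ^ k ∧
    ∀ k < N, V.valuation (aeval θ (d k * ϕ ^ k)) ≤ V.valuation (aeval θ f)

end key

open Polynomial in
/-- The extension `L ⊆ L'` of subfields of `K` is finite and has no defect with respect to the
valuation ring `V` of `K`. That is, for some valuation ring `W` over `V` of some extension field
`M` of `K`, some root `ζ ∈ M` of a monic polynomial `f` over `V ∩ L` with `|f'(ζ)| = 1`, and some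
nonzero elements `β i` of `L'`, the field `L'(ζ)` is the sum of the lines `L(ζ) β i`, and the `β
i` are orthogonal over `L(ζ) = L[ζ]`. (The extension `L(ζ) / L` is unramified. If `L^h ⊆ L'^h ⊆
K^h` are the henselizations for `V` and `[L'^h : L^h] = e f`, then this holds with `M = K^h`,
`L(ζ)` a large finite subextension of `L^h / L`, and with products of `e` elements of `L'` whose
values represent the cosets of the value group and `f` elements of `L'` whose residues form a
basis for the `β i`. For `M = K` and `L(ζ) = L` it is the condition `[L' : L] = e f`.) -/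
def IsFiniteWithoutDefect {K : Type u} [Field K] (V : ValuationSubring K) (L L' : Subfield K) :
    Prop :=
  L ≤ L' ∧ ∃ (M : Type u) (_ : Field M) (_ : Algebra K M) (W : ValuationSubring M) (ζ : M)
    (f : L[X]) (n : ℕ) (β : Fin n → K), W.comap (algebraMap K M) = V ∧ f.Monic ∧
    (∀ i, (f.coeff i : K) ∈ V) ∧ eval₂ ((algebraMap K M).comp L.subtype) ζ f = 0 ∧
    W.valuation (eval₂ ((algebraMap K M).comp L.subtype) ζ (derivative f)) = 1 ∧
    (∀ i, β i ∈ L' ∧ β i ≠ 0) ∧
    (∀ z ∈ L', ∃ c : Fin n → L[X], algebraMap K M z =
      ∑ i, eval₂ ((algebraMap K M).comp L.subtype) ζ (c i) * algebraMap K M (β i)) ∧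
    ∀ (c : Fin n → L[X]) (i : Fin n),
      W.valuation (eval₂ ((algebraMap K M).comp L.subtype) ζ (c i) * algebraMap K M (β i)) ≤
        W.valuation (∑ j, eval₂ ((algebraMap K M).comp L.subtype) ζ (c j) * algebraMap K M (β j))

open Polynomial in
/-- The subfields `L` of `K` which are reached from the subfield `E` by a tower of steps without
defect with respect to the valuation ring `V` of `K`. -/
inductive Tower {K : Type u} [Field K] (E : Subfield K) (V : ValuationSubring K) :
    Subfield K → Prop
  /-- The tower starts with `E`. -/
  | base : Tower E V E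
  /-- The step from `L` to `L(t)`, where `t` is transcendental and the value of every polynomial in
  `t` is determined by a defectless key polynomial. (This holds if the valuation of `L(t)` has no
  limit key polynomials; for example, if `L` is algebraically closed, if `t` is a limit of a
  pseudo-convergent sequence of transcendental type, or if the value or the residue of a
  defectless key polynomial at `t` is transcendental over `L`.) -/
  | transcendental (L : Subfield K) (t : K) : Tower E V L → Transcendental L t →
    (∀ f : L[X], ∃ ϕ : L[X], IsKey V t ϕ ∧ IsDefectless V t ϕ ∧ IsDetermined V t ϕ f) →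
    Tower E V (L ⊔ Subfield.closure {t})
  /-- The step from `L` to a finite extension `L'` without defect. -/
  | finite (L L' : Subfield K) : Tower E V L → IsFiniteWithoutDefect V L L' → Tower E V L'

/-- The chart `A[I / f]` of the blowing-up of `Spec A` in the ideal `I`. -/
def blowUpChart {F : Type u} [Field F] (A : Subring F) (I : Ideal A) (f : A) : Subring F :=
  Subring.closure ((A : Set F) ∪ {z | ∃ a ∈ I, z = (a : F) / (f : F)})

/-- `P` is a regular local ring and the zero set of `J` is a divisor with strict normal
crossings: the radical of `J` is generated by the product of some of the elements of a regular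
system of parameters. -/
def RegularPair (P : Type u) [CommRing P] (J : Ideal P) : Prop :=
  ∃ (_ : IsRegularLocalRing P) (n : ℕ) (x : Fin n → P) (s : Finset (Fin n)),
    Ideal.span (Set.range x) = IsLocalRing.maximalIdeal P ∧ ringKrullDim P = n ∧
      J.radical = Ideal.span {∏ i ∈ s, x i}

/-- The blowing-up of `X = Spec A` in `V(I)` is a log desingularization of `(X, V(D))` along the
valuation ring `V`. Here `f ∈ I` generates `I V`, the centre of the lift of the valuation lies in
the chart `Spec A[I / f]`, and the ideal `D I` defines the preimage of `V(D) ∪ V(I)`. -/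
def IsLogDesingularization {F : Type u} [Field F] (V : ValuationSubring F) (A : Subring F)
    (D I : Ideal A) : Prop :=
  ∃ f ∈ I, f ≠ 0 ∧ (∀ a ∈ I, (a : F) / (f : F) ∈ V) ∧
    RegularPair (centreRing V (blowUpChart A I f))
      (Ideal.span {z | ∃ a ∈ D * I, (z : F) = (a : F)})

/-- The valuation ring `V` is log uniformizable on `Spec A`. (The blowings-up in the ideals
`I₀ * I₁` are cofinal: the blowing-up in `I₀ * I₁` factors through the blowing-up in `I₀`.) -/
def IsLogUniformizable {F : Type u} [Field F] (V : ValuationSubring F) (A : Subring F) : Prop :=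
  ∀ D I₀ : Ideal A, D ≠ ⊥ → I₀ ≠ ⊥ →
    ∃ I₁ : Ideal A, I₁ ≠ ⊥ ∧ IsLogDesingularization V A D (I₀ * I₁)

/-- Every element of the field `K` is a fraction of elements of `A`. -/
def HasFractionField {K : Type u} [Field K] (A : Subring K) : Prop :=
  ∀ z : K, ∃ a ∈ A, ∃ b ∈ A, b ≠ 0 ∧ z = a * b⁻¹

/-- `V` is a discrete valuation ring, or the sequence of quadratic transforms of `Spec A` along `V`
is divergent for all `O`-algebras `A ⊆ V` of finite type, or `V` is log uniformizable on `Spec A` for
all `O`-algebras `A ⊆ V` of finite type with the fraction field `K`. -/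
def IsAdmissible {K : Type u} [Field K] (O : Subring K) (V : ValuationSubring K) : Prop :=
  IsDiscreteValuationRing V ∨
    (∀ T : Set K, T.Finite → Subring.closure ((O : Set K) ∪ T) ≤ V.toSubring →
      IsDivergent V (Subring.closure ((O : Set K) ∪ T))) ∨
    ∀ T : Set K, T.Finite → Subring.closure ((O : Set K) ∪ T) ≤ V.toSubring →
      HasFractionField (Subring.closure ((O : Set K) ∪ T)) →
      IsLogUniformizable V (Subring.closure ((O : Set K) ∪ T))

/-- The subfield `E` is generated by `O` and finitely many elements. -/
def IsFinitelyGenerated {K : Type u} [Field K] (O : Subring K) (E : Subfield K) : Prop :=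
  ∃ T : Set K, T.Finite ∧ E = Subfield.closure ((O : Set K) ∪ T)

lemma quadraticSequence_eq {K : Type u} [Field K] (V : ValuationSubring K) (A : Subring K) :
    quadraticSequence V A = qseq V A := by
  funext n
  induction n with
  | zero => rfl
  | succ n ih =>
    change quadraticTransform V (quadraticSequence V A n) = qt V.toSubring (qseq V A n)
    rw [ih, qt_val]
    rfl

lemma IsDivergent.dv {K : Type u} [Field K] {V : ValuationSubring K} {A : Subring K}
    (h : IsDivergent V A) : Dv V (qseq V A) := by
  rw [← quadraticSequence_eq]
  exact dv_of_lt h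

/-- The steps of a tower. -/
lemma Tower.inv {K : Type u} [Field K] {E : Subfield K} {V : ValuationSubring K}
    {R' : Subring K} (h0 : Pool.Agent.H176.DT.Inv V R' E.subtype)
    {L : Subfield K} (hL : Tower E V L) : Pool.Agent.H176.DT.Inv V R' L.subtype := by
  have kp : ∀ {L : Subfield K} {θ : K} {ϕ : Polynomial L}, IsKey V θ ϕ → IsDefectless V θ ϕ →
      ∃ (n : ℕ) (β : Fin n → Polynomial L), Pool.Agent.H176.DT.KP V θ ϕ β := by
    rintro L θ ϕ ⟨h1, h2, h3⟩ ⟨n, β, h4, h5, h6⟩
    exact ⟨n, β, h1, h2, fun i => (h4 i).1, fun i => (h4 i).2, h5, h6, h3⟩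
  induction hL with
  | base => exact h0
  | transcendental L t _ ht hdom ih =>
    refine Pool.Agent.H176.DT.sub_trans V _ t ht (fun f => ?_) ih
    obtain ⟨ϕ, h1, h2, N, d, h3, h4, h5⟩ := hdom f
    obtain ⟨n, β, h6⟩ := kp h1 h2
    exact ⟨ϕ, n, β, h6, N, d, ⟨h3, h4⟩, h5⟩
  | finite L L' _ hnd ih => exact Pool.Agent.H176.DT.sub_nd V _ hnd.1 hnd.2 ih

lemma exists_generators {K : Type u} [Field K] {O : Subring K} {E : Subfield K}
    (hOE : ∀ a : O, (a : K) ∈ E) (hE : IsFinitelyGenerated O E) :
    ∃ S : Set E, S.Finite ∧ ∀ z : E, Fr (Pool.Agent.R187.CT.rg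
      (O.subtype.codRestrict E.toSubring hOE : O →+* E) S) z := by
  obtain ⟨T, hT, hTE⟩ := hE
  refine ⟨E.subtype ⁻¹' T, hT.preimage (E.subtype.injective.injOn), fun z => ?_⟩
  set ρ : O →+* E := O.subtype.codRestrict E.toSubring hOE with hρ
  have h1 : Subfield.closure ((O : Set K) ∪ T) ≤
      (fr (Pool.Agent.R187.CT.rg ρ (E.subtype ⁻¹' T))).map E.subtype := by
    rw [Subfield.closure_le]
    rintro x (hx | hx)
    · exact ⟨ρ ⟨x, hx⟩, le_fr _ (Subring.subset_closure (Or.inl ⟨⟨x, hx⟩, rfl⟩)), rfl⟩
    · have hxE : x ∈ E := by
        rw [hTE]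
        exact Subfield.subset_closure (Or.inr hx)
      exact ⟨⟨x, hxE⟩, le_fr _ (Subring.subset_closure (Or.inr hx)), rfl⟩
  rw [← hTE] at h1
  obtain ⟨y, hy, hyz⟩ := h1 z.2
  have h2 : y = z := E.subtype.injective hyz
  rw [h2] at hy
  exact Pool.Agent.R187.CT.fr_iff.2 hy

/-- Let `v` be a multiplicative norm on a field `K` of characteristic zero with the valuation ring
`V`. Let `O ⊆ V` be a Dedekind domain (for example, `O = k°` for a discretely valued field `k`), and
let `π ≠ 0` be an element of `O` with `|π| < 1` (for example, a uniformizer of `k`). Let `𝒳` be an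
integral projective `O`-scheme with function field `K` and with the homogeneous coordinates `W`; let
the chart `w ≠ 0` contain the centre of `V`. Let `E ⊆ K` be a subfield, finitely generated over `O`,
such that the restriction of `V` to `E` is a discrete valuation ring, or has divergent sequences of
quadratic transforms, or is log uniformizable on all models of `E`, and let `K` be reached from `E` by a tower without defect. Suppose that `|π|`
is not a `p`-th power in the value group of `v` if `p` is the residue characteristic of `v`.

Then there are `d` with `|d| = 1` and `N₀` such that for all `N ≥ N₀` divisible by `d` there are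
`K' = K(ϖ)`, `ϖ ^ N = π`, and valuation rings `V'` of `K'` over `V`, and for all such `K'` and `V'`
there is a closed subscheme of the fibre of `𝒳 ⊗ O[ϖ]` over `ϖ = 0` such that the blowing-up in this
subscheme (the main component if `K ⊗ k(ϖ)` is not a field) is semistable at the centre of `V'`. -/
theorem result {K : Type u} [Field K] [CharZero K] (v : Valuation K NNReal)
    (O : Subring K) [IsDedekindDomain O] (hO : ∀ a ∈ O, v a ≤ 1)
    (π : K) (_hπ : π ∈ O) (hπ0 : π ≠ 0) (hπ1 : v π < 1)
    (hdiv : ∀ p : ℕ, p.Prime → v (p : K) < 1 → ∀ z : K, v z ^ p ≠ v π)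
    (W : Set K) (hW : W.Finite) (w : K) (hw : w ∈ W) (hw0 : w ≠ 0)
    (hwV : ∀ z ∈ W, v (z / w) ≤ 1)
    (hWK : ∀ z : K, ∃ a ∈ chart O W w, ∃ b ∈ chart O W w, b ≠ 0 ∧ z = a * b⁻¹)
    (E : Subfield K) (hE : IsFinitelyGenerated O E)
    (hEv : IsAdmissible (O.comap E.subtype) (v.valuationSubring.comap E.subtype))
    (hK : Tower E v.valuationSubring ⊤) :
    ∃ d N₀ : ℕ, 0 < d ∧ v (d : K) = 1 ∧ ∀ N : ℕ, N₀ ≤ N → d ∣ N →
      (∃ (K' : Type u) (_ : Field K') (_ : Algebra K K') (V' : ValuationSubring K') (ϖ : K'),
        IsLift v.valuationSubring π N V' ϖ) ∧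
      ∀ {K' : Type u} [Field K'] [Algebra K K'] (V' : ValuationSubring K') (ϖ : K'),
        IsLift v.valuationSubring π N V' ϖ →
        ∃ Y : Set K',
          IsVerticalCentre (ramifiedRing (algebraMap K K') O ϖ) ϖ (algebraMap K K' '' W) Y ∧
          IsSemistableAt V' (ramifiedRing (algebraMap K K') O ϖ)
            (blowUpCoordinates (algebraMap K K' '' W) Y) ϖ := by
  have hchV : chart O W w ≤ v.valuationSubring.toSubring := by
    unfold chart
    rw [Subring.closure_le]
    rintro z (hz | ⟨y, hy, rfl⟩)
    · exact hO z hz
    · exact hwV y hy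
  have hMod : Pool.Agent.H176.DT.Mod v.valuationSubring (chart O W w) := ⟨hchV, hWK⟩
  have hOc : CharZero O := ⟨fun m n h => by
    have h1 := congrArg Subtype.val h
    push_cast at h1
    exact_mod_cast h1⟩
  have hR : HJ O := hj_dedekind
  have hT : ({z | ∃ y ∈ W, z = y / w} : Set K).Finite := by
    refine (hW.image fun y => y / w).subset ?_
    rintro z ⟨y, hy, rfl⟩
    exact ⟨y, hy, rfl⟩
  have hrange : ((O.subtype.range : Subring K) : Set K) = (O : Set K) := by
    ext z
    simp
  have hch : chart O W w = Pool.Agent.R187.CT.rg O.subtype {z | ∃ y ∈ W, z = y / w} := by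
    change _ = Subring.closure (((O.subtype.range : Subring K) : Set K) ∪ _)
    rw [hrange]
    rfl
  -- the restriction to `E`
  have hOE : ∀ a : O, (a : K) ∈ E := by
    obtain ⟨T, -, h⟩ := hE
    intro a
    rw [h]
    exact Subfield.subset_closure (Or.inl a.2)
  let ρ : O →+* E := O.subtype.codRestrict E.toSubring hOE
  have hρO : ((ρ.range : Subring E) : Set E) = (O.comap E.subtype : Set E) := by
    ext z
    constructor
    · rintro ⟨a, rfl⟩
      exact a.2
    · intro hz
      exact ⟨⟨(z : K), hz⟩, rfl⟩
  have hgE : Pool.Agent.R187.CT.Good ρ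
      (v.valuationSubring.comap (algebraMap E K)) := by
    have h1 : ∀ T : Set E, Pool.Agent.R187.CT.rg ρ T =
        Subring.closure (((O.comap E.subtype : Subring E) : Set E) ∪ T) := by
      intro T
      change Subring.closure (((ρ.range : Subring E) : Set E) ∪ T) = _
      rw [hρO]
    rcases hEv with h | h | h
    · exact Pool.Agent.R187.CT.good_dv hR ρ _ (Or.inl h)
    · refine Pool.Agent.R187.CT.good_dv hR ρ _ (Or.inr fun T hT hTV => ?_)
      rw [h1] at hTV ⊢
      exact (h T hT hTV).dv
    · refine Pool.Agent.R187.CT.good_given hR ρ _ (exists_generators hOE hE) fun T hT hTV hTE => ?_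
      rw [h1] at hTV hTE ⊢
      exact h T hT hTV hTE
  have hgK : Pool.Agent.R187.CT.Good ((algebraMap E K).comp ρ) v.valuationSubring := by
    refine Pool.Agent.R187.CT.good_tower hR ρ v.valuationSubring (fun a => hO _ a.2)
      (exists_generators hOE hE) hgE fun R' h0 => hK.inv ?_
    have h1 : ∀ X : Subfield K, X = E → Pool.Agent.H176.DT.Inv v.valuationSubring R' X.subtype →
        Pool.Agent.H176.DT.Inv v.valuationSubring R' E.subtype := by
      rintro X rfl h
      exact h
    exact h1 _ (Subfield.fieldRange_subtype E) h0
  have hρK : (algebraMap E K).comp ρ = O.subtype := RingHom.ext fun a => rfl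
  rw [hρK] at hgK
  have hLU : LogUnif v.valuationSubring (chart O W w) :=
    hgK.logUnif hR hT hchV hch.ge
      (fun b hb => ⟨b, by rw [← hch]; exact hb, 1, Subring.one_mem _, one_ne_zero,
        by rw [inv_one]; exact Subring.one_mem _, by rw [inv_one, mul_one]⟩) hWK
  have hN : IsNoetherianRing (chart O W w) := by
    rw [hch]
    exact Pool.Agent.R187.CT.noe_rg hR _ hT
  have h2 : Pool.Agent.H176.DT.SU v.valuationSubring (chart O W w) :=
    Pool.Agent.H176.DT.p_base _ _ hMod hLU
  obtain ⟨d, N₀, hd, hvd, h3⟩ := Pool.Agent.H176.DT.ss_main Pool.Agent.H176.DT.p_et6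
    Pool.Agent.H176.DT.p_tor6 Pool.Agent.H176.DT.p_comb6 v O hO hW hw hw0 hwV hMod h2
    π hπ0 hπ1 hdiv
  refine ⟨d, N₀ + 1, hd, hvd, fun N hN' hdN =>
    ⟨Pool.Agent.H176.DT.exists_root _ _ (by omega), ?_⟩⟩
  have hN : N₀ ≤ N := by omega
  rintro K' _ _ V' ϖ ⟨hV', hϖ, hgen⟩
  obtain ⟨Y, d', n', h4, h5, h6, w', h7, h8, h9, P, h10, h11⟩ := h3 N hN hdN V' ϖ hV' hϖ hgen
  have h12 : ramifiedRing (algebraMap K K') O ϖ = Pool.Agent.H176.DT.Orm O ϖ := rfl
  rw [h12]
  refine ⟨Y, ⟨h4, d', n', h5, h6⟩, w', h7, h8, h9, ?_⟩
  have h13 : centreRing V' (chart (Pool.Agent.H176.DT.Orm O ϖ)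
      (blowUpCoordinates (algebraMap K K' '' W) Y) w') = P := h10
  rw [h13]
  exact h11

end Pool.Agent.Results.MP_1a953e_ag.TowersOverPoints
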